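import Pool.Agent.Run7.h27.EH.Ch
import Pool.Agent.Run7.h27.MK.Poly

set_option autoImplicit false

/-!
First moments of the correlations along families of integers whose exponential sums are small off few narrow arcs
(length `log^D N / H`, `H ≥ N^(1/3) log^C N`), from the one shift law of project MK.
-/

namespace Pool.Agent.Run7.h27.EH

open Finset Filter
open Pool.Agent.H807R2.Dav (ee norm_ee ee_add)
open Pool.Agent.W93.AU (dI)
open Pool.Agent.TH212.EH (S1 S2 sum_Icc_sub reflect)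
open Pool.Agent.Run7.h794.MK (S_LAW')
open Pool.Agent.Run7.h27.MK (ev_logN ev_ge)

/-- off at most `log^T N` arcs of length `log^D N / H` on the circle the exponential sums of the family are at most
`#ι / log^V N` -/
def Off (V T D N H : ℕ) {ι : Type} [Fintype ι] (v : ι → ℤ) : Prop :=
  ∃ Γ : Finset ℝ, (Γ.card : ℝ) ≤ Real.log N ^ T ∧
    ∀ α : ℝ, (∀ γ ∈ Γ, ∀ m : ℤ, Real.log N ^ D / H < |α - γ - m|) → ‖∑ i, ee ((v i : ℝ) * α)‖ ≤ Fintype.card ι / Real.log N ^ V

/-- the same with arcs around all the rationals with denominators at most `log^T N` -/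
def OffR (V T D N H : ℕ) {ι : Type} [Fintype ι] (v : ι → ℤ) : Prop :=
  ∀ α : ℝ, (∀ k : ℕ, 1 ≤ k → (k : ℝ) ≤ Real.log N ^ T → ∀ a : ℤ, Real.log N ^ D / H < |α - a / k|) →
    ‖∑ i, ee ((v i : ℝ) * α)‖ ≤ Fintype.card ι / Real.log N ^ V

lemma OffR.off {V T D N H : ℕ} {ι : Type} [Fintype ι] {v : ι → ℤ} (hL : 0 ≤ Real.log N) (h : OffR V T D N H v) :
    Off V (2 * T) D N H v := by
  classical
  obtain ⟨Q₀, hQ₀⟩ : ∃ Q₀ : ℕ, Q₀ = ⌊Real.log N ^ T⌋₊ := ⟨_, rfl⟩
  have hQ₀L : (Q₀ : ℝ) ≤ Real.log N ^ T := by rw [hQ₀]; exact Nat.floor_le (by positivity)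
  refine ⟨((Icc 1 Q₀) ×ˢ (range Q₀)).image (fun g => ((g.2 : ℕ) : ℝ) / ((g.1 : ℕ) : ℝ)), ?_, fun α hα => h α fun k hk1 hk2 a => ?_⟩
  · calc ((((Icc 1 Q₀) ×ˢ (range Q₀)).image (fun g => ((g.2 : ℕ) : ℝ) / ((g.1 : ℕ) : ℝ))).card : ℝ) ≤ ((Q₀ * Q₀ : ℕ) : ℝ) := by
          apply Nat.cast_le.2
          refine card_image_le.trans ?_
          rw [card_product, Nat.card_Icc, card_range, Nat.add_sub_cancel]
      _ = (Q₀ : ℝ) ^ 2 := by push_cast; ring
      _ ≤ (Real.log N ^ T) ^ 2 := pow_le_pow_left₀ (Nat.cast_nonneg _) hQ₀L 2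
      _ = _ := by rw [← pow_mul, mul_comm]
  · have hkz : (0 : ℤ) < k := by exact_mod_cast hk1
    have hk0 : (0 : ℝ) < k := by exact_mod_cast hk1
    obtain ⟨b, hb⟩ : ∃ b : ℕ, (b : ℤ) = a % k := ⟨(a % k).toNat, Int.toNat_of_nonneg (Int.emod_nonneg a hkz.ne')⟩
    have hbk : b < k := by
      have := Int.emod_lt_of_pos a hkz
      omega
    obtain ⟨j, hj⟩ : ∃ j : ℤ, a = b + k * j := ⟨a / k, by rw [hb]; exact (Int.emod_add_mul_ediv a k).symm⟩
    have hkQ : k ≤ Q₀ := by rw [hQ₀]; exact Nat.le_floor hk2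
    have h3 := hα ((b : ℝ) / k) (by
      rw [mem_image]
      refine ⟨(k, b), ?_, rfl⟩
      rw [mem_product, mem_Icc, mem_range]
      exact ⟨⟨hk1, hkQ⟩, by omega⟩) j
    refine lt_of_lt_of_le h3 (le_of_eq ?_)
    congr 1
    rw [hj]
    push_cast
    field_simp
    ring

/-- the class -/
def Arc (V T D C : ℕ) : Cls := fun N _ _ v => ∃ H : ℕ, (N : ℝ) ^ (1 / 3 : ℝ) * Real.log N ^ C ≤ H ∧ Off V T D N H v

lemma blocks_full (g : ℕ → ℝ) (N B : ℕ) : ∑ n ∈ Icc 1 (B * N), g n = ∑ j ∈ range B, ∑ n ∈ Icc 1 N, g (n + j * N) := by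
  induction B with
  | zero => simp
  | succ B ih =>
    rw [sum_range_succ, ← ih, sum_Icc_sub g (B * N) ((B + 1) * N) (Nat.mul_le_mul_right _ (by omega))]
    congr 1
    apply sum_bij' (fun n _ => n - B * N) (fun n _ => n + B * N)
    · intro n hn
      rw [mem_Ioc] at hn
      rw [mem_Icc]
      have : (B + 1) * N = B * N + N := by ring
      omega
    · intro n hn
      rw [mem_Icc] at hn
      rw [mem_Ioc]
      have : (B + 1) * N = B * N + N := by ring
      omega
    · intro n hn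
      rw [mem_Ioc] at hn
      omega
    · intro n hn
      omega
    · intro n hn
      rw [mem_Ioc] at hn
      congr 1
      omega

lemma blocks (F : ℕ → ℝ) (A N B : ℕ) (hA : A ≤ B * N) :
    ∑ n ∈ Icc 1 A, F n = ∑ j ∈ range B, ∑ n ∈ Icc 1 N, (if n + j * N ≤ A then F (n + j * N) else 0) := by
  rw [← blocks_full (fun n => if n ≤ A then F n else 0) N B, ← sum_filter]
  apply sum_congr _ (fun _ _ => rfl)
  ext n
  rw [mem_filter, mem_Icc, mem_Icc]
  omega

/-- **the first moments** -/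
theorem base_arc (hLAW : S_LAW') (B U : ℕ) : ∃ V : ℕ, ∀ T D : ℕ, ∃ C : ℕ, Base (Arc V T D C) B U := by
  obtain ⟨B', hB'⟩ : ∃ B', B' = 3 * B + 2 := ⟨_, rfl⟩
  obtain ⟨V, hV⟩ := hLAW B' (U + 1)
  refine ⟨V, fun T D => ?_⟩
  obtain ⟨C, B₀, hLaw⟩ := hV T (D + 1)
  refine ⟨C, B₀, fun E => ?_⟩
  obtain ⟨N₁, hN₁⟩ := hLaw E
  obtain ⟨N₂, h2⟩ := eventually_atTop.1 (((ev_ge ((B : ℝ) + 3)).and (ev_logN C 1)).and (eventually_ge_atTop (2 * (B' + 2) + 3)))
  refine ⟨N₁ + N₂ + 3, fun N hN ι _ v hv hC z hz1 hz2 A hA G hG => ?_⟩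
  obtain ⟨⟨hL1, hL4⟩, hNB⟩ := h2 N (by omega)
  obtain ⟨H₀, hH₀, Γ, hΓ, hoff⟩ := hC
  rcases isEmpty_or_nonempty ι with hι | hι
  · simp
  have hcard : (0 : ℝ) < Fintype.card ι := by exact_mod_cast Fintype.card_pos
  have hNr : (3 : ℝ) ≤ N := by exact_mod_cast (by omega : 3 ≤ N)
  have hN0 : (0 : ℝ) < N := by linarith
  obtain ⟨L, hLd⟩ : ∃ L, L = Real.log (N : ℝ) := ⟨_, rfl⟩
  rw [← hLd] at hL1 hL4 hH₀ hoff hΓ
  have hB0 : (0 : ℝ) ≤ B := Nat.cast_nonneg _
  have hLp : 3 ≤ L := by linarith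
  have hL0 : 0 < L := by linarith
  have hLone : 1 ≤ L := by linarith
  obtain ⟨M, hM⟩ : ∃ M, M = 2 * (B' + 2) * N := ⟨_, rfl⟩
  have hM1 : 1 ≤ M := by rw [hM]; nlinarith
  have hM0 : (0 : ℝ) < M := by exact_mod_cast hM1
  obtain ⟨H, hH⟩ : ∃ H, H = min H₀ N := ⟨_, rfl⟩
  have hHN : H ≤ N := by rw [hH]; exact min_le_right _ _
  have hHH : H ≤ H₀ := by rw [hH]; exact min_le_left _ _
  have hH1 : (N : ℝ) ^ (1 / 3 : ℝ) * L ^ C ≤ H := by
    rw [hH]
    push_cast
    apply le_min hH₀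
    have e1 : (N : ℝ) ^ (1 / 3 : ℝ) * (N : ℝ) ^ (1 / 3 : ℝ) ≤ N := by
      rw [← Real.rpow_add hN0]
      calc (N : ℝ) ^ ((1 / 3 : ℝ) + 1 / 3) ≤ (N : ℝ) ^ (1 : ℝ) :=
            Real.rpow_le_rpow_of_exponent_le (by linarith) (by norm_num)
        _ = N := Real.rpow_one _
    refine le_trans (mul_le_mul_of_nonneg_left ?_ (by positivity)) e1
    linarith
  have hHpos : (0 : ℝ) < H := lt_of_lt_of_le (by positivity) hH1
  have hMH : (1 : ℝ) ≤ M / H := by
    rw [le_div_iff₀ hHpos, one_mul]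
    have h1 : H ≤ M := by rw [hM]; nlinarith
    exact_mod_cast h1
  -- one block
  have hone : ∀ c : ℤ, |c| ≤ (2 * B + 2) * N → ∀ G' : ℕ → ℝ, (∀ n, |G' n| ≤ 1) →
      ∑ i, |∑ n ∈ Icc 1 N, G' n * dI z ((n : ℤ) + (c + v i))| ≤ Fintype.card ι * (N / L ^ (U + 1)) := by
    intro c hc G' hG'
    have key := hN₁ N (by omega) z hz1 hz2 M (by rw [hM]) (by
        rw [hM, sq]
        exact Nat.mul_le_mul_right _ (by omega)) ι univ (fun _ => 1 / (Fintype.card ι : ℝ))
      (fun i => c + v i) (fun _ _ => by positivity) (by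
        rw [sum_const, card_univ, nsmul_eq_mul]
        field_simp
        exact le_rfl) (fun i _ => by
        refine (abs_add_le _ _).trans ?_
        have := hv i
        rw [hB']
        push_cast
        linarith) H (by rw [← hLd]; exact hH1) (Γ.image (fun γ => round ((M : ℝ) * γ))) (by
        rw [← hLd]
        refine le_trans ?_ hΓ
        exact_mod_cast card_image_le) (fun t ht => by
        rw [← hLd] at ht ⊢
        have h3 := hoff ((t : ℝ) / M) (by
          intro γ hγ j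
          by_contra hcon
          push Not at hcon
          have h5 := ht (round ((M : ℝ) * γ)) (mem_image.2 ⟨γ, hγ, rfl⟩) j
          have h4 : |(t : ℝ) - M * γ - j * M| ≤ M * (L ^ D / H) := by
            have e1 : (t : ℝ) - M * γ - j * M = M * ((t : ℝ) / M - γ - j) := by field_simp
            rw [e1, abs_mul, abs_of_pos hM0]
            apply mul_le_mul_of_nonneg_left _ hM0.le
            refine hcon.trans ?_
            apply div_le_div_of_nonneg_left (by positivity) hHpos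
            exact_mod_cast hHH
          have h6 : |((t - round ((M : ℝ) * γ) - j * M : ℤ) : ℝ)| ≤ M * (L ^ D / H) + 1 := by
            have h7 : |(M : ℝ) * γ - round ((M : ℝ) * γ)| ≤ 1 / 2 := abs_sub_round _
            push_cast
            have e3 : (t : ℝ) - round ((M : ℝ) * γ) - j * M = ((t : ℝ) - M * γ - j * M) + ((M : ℝ) * γ - round ((M : ℝ) * γ)) := by ring
            rw [e3]
            exact (abs_add_le _ _).trans (by linarith)
          have h8 : (M : ℝ) * (L ^ D / H) + 1 ≤ L ^ (D + 1) * (M / H) := by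
            have h7 : 1 ≤ L ^ D := one_le_pow₀ hLone
            calc (M : ℝ) * (L ^ D / H) + 1 ≤ L ^ D * (M / H) + 1 * (M / H) := by
                  have : (M : ℝ) * (L ^ D / H) = L ^ D * (M / H) := by ring
                  linarith
              _ = (L ^ D + 1) * (M / H) := by ring
              _ ≤ L ^ (D + 1) * (M / H) := by
                  apply mul_le_mul_of_nonneg_right _ (by positivity)
                  rw [pow_succ]
                  nlinarith
          linarith)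
        have e2 : ∑ i : ι, (((1 / (Fintype.card ι : ℝ) : ℝ)) : ℂ) * ee ((((c + v i : ℤ)) : ℝ) * ((t : ℝ) / M)) =
            ((1 / (Fintype.card ι : ℝ) : ℝ) : ℂ) * (ee ((c : ℝ) * ((t : ℝ) / M)) * ∑ i : ι, ee ((v i : ℝ) * ((t : ℝ) / M))) := by
          rw [mul_sum, mul_sum]
          refine sum_congr rfl fun i _ => ?_
          rw [← ee_add]
          congr 2
          push_cast
          ring
        rw [e2, norm_mul, norm_mul, norm_ee, one_mul, Complex.norm_real, Real.norm_of_nonneg (by positivity)]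
        calc 1 / (Fintype.card ι : ℝ) * ‖∑ i : ι, ee ((v i : ℝ) * ((t : ℝ) / M))‖ ≤
              1 / (Fintype.card ι : ℝ) * (Fintype.card ι / L ^ V) := mul_le_mul_of_nonneg_left h3 (by positivity)
          _ = 1 / L ^ V := by field_simp) 1 one_pos G' (fun n _ => hG' n)
    rw [← hLd, one_mul, ← mul_sum] at key
    have h8 : ∑ i, |∑ n ∈ Icc 1 N, G' n * dI z ((n : ℤ) + (c + v i))| ≤ Fintype.card ι * (N / L ^ (U + 1)) := by
      rw [one_div, inv_mul_le_iff₀ hcard] at key
      exact key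
    exact h8
  have hall : ∀ c : ℤ, |c| ≤ (B + 1) * N → ∀ G' : ℕ → ℝ, (∀ n, |G' n| ≤ 1) →
      ∑ i, |∑ a ∈ Icc 1 A, G' a * dI z ((a : ℤ) + (v i - c))| ≤ N * Fintype.card ι / L ^ U := by
    intro c hc G' hG'
    have h3 : ∀ i, |∑ a ∈ Icc 1 A, G' a * dI z ((a : ℤ) + (v i - c))| ≤ ∑ j ∈ range B, |∑ n ∈ Icc 1 N,
        (if n + j * N ≤ A then G' (n + j * N) else 0) * dI z ((n : ℤ) + (((j * N : ℕ) - c : ℤ) + v i))| := by
      intro i
      rw [blocks _ A N B hA]
      refine (abs_sum_le_sum_abs _ _).trans (le_of_eq ?_)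
      refine sum_congr rfl fun j _ => ?_
      congr 1
      refine sum_congr rfl fun n _ => ?_
      have e3 : ((n + j * N : ℕ) : ℤ) + (v i - c) = (n : ℤ) + (((j * N : ℕ) - c : ℤ) + v i) := by push_cast; ring
      split_ifs
      · rw [e3]
      · rw [zero_mul]
    refine (sum_le_sum fun i _ => h3 i).trans ?_
    rw [sum_comm]
    have h4 : ∀ j ∈ range B, ∑ i, |∑ n ∈ Icc 1 N, (if n + j * N ≤ A then G' (n + j * N) else 0) *
        dI z ((n : ℤ) + (((j * N : ℕ) - c : ℤ) + v i))| ≤ Fintype.card ι * (N / L ^ (U + 1)) := by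
      intro j hj
      rw [mem_range] at hj
      apply hone _ _ (fun n => if n + j * N ≤ A then G' (n + j * N) else 0)
      · intro n
        split_ifs
        · exact hG' _
        · rw [abs_zero]; exact zero_le_one
      · have e4 : |((j * N : ℕ) - c : ℤ)| ≤ |((j * N : ℕ) : ℤ)| + |c| := abs_sub _ _
        have e5 : |((j * N : ℕ) : ℤ)| ≤ B * N := by
          rw [abs_of_nonneg (by positivity)]
          exact_mod_cast Nat.mul_le_mul_right N hj.le
        have e6 : (0 : ℤ) ≤ N := by positivity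
        nlinarith
    refine (sum_le_sum h4).trans ?_
    rw [sum_const, card_range, nsmul_eq_mul]
    calc (B : ℝ) * (Fintype.card ι * (N / L ^ (U + 1))) ≤ L * (Fintype.card ι * (N / L ^ (U + 1))) :=
          mul_le_mul_of_nonneg_right (by linarith) (by positivity)
      _ = _ := by rw [pow_succ]; field_simp
  rw [← hLd]
  constructor
  · have h3 := hall 0 (by rw [abs_zero]; positivity) G hG
    simp only [sub_zero] at h3
    exact h3
  · have h3 := hall ((A + 1 : ℕ) : ℤ) (by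
      rw [abs_of_nonneg (by positivity)]
      have q1 : ((A : ℕ) : ℤ) ≤ B * N := by exact_mod_cast hA
      have q2 : (1 : ℤ) ≤ N := by exact_mod_cast (by omega : 1 ≤ N)
      push_cast
      linarith) (fun a => G (A + 1 - a)) (fun n => hG _)
    simp only [reflect] at h3
    exact h3

end Pool.Agent.Run7.h27.EH
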