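import Pool.Agent.Run7.h27.EH.Arc
import Pool.Agent.Run7.h794.MK.Tra

set_option autoImplicit false

/-!
Level of distribution along families of integers whose exponential sums are small off narrow major arcs: the average form,
the form for almost all members with their neighbours; values of polynomials and flat families in short intervals.
-/

namespace Pool.Agent.Run7.h27.EH

open Finset Filter Polynomial
open Pool.Agent.H807R2.Dav (ee norm_ee ee_add)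
open Pool.Agent.W93.LV (Fu)
open Pool.Agent.TH212.EH (level W WW)
open Pool.Agent.N384.MQ (Flat Sm dis dis_sum)
open Pool.Agent.Run7.h794.MK (S_LAW' sm_dis' Flat.mono')
open Pool.Agent.Run7.h27.MK (ev_logN ev_ge ee_eq)

/-- the average form -/
theorem arc_dual (hLAW : S_LAW') (B T U : ℕ) : ∃ V : ℕ, ∀ S D : ℕ, ∃ K C N₀ : ℕ, ∀ N : ℕ, N₀ ≤ N →
    ∀ (ι : Type) [Fintype ι] (v : ι → ℤ), (∀ i, |v i| ≤ B * N) → ∀ H : ℕ, (N : ℝ) ^ (1 / 3 : ℝ) * Real.log N ^ C ≤ H →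
    Off V S D N H v → ∀ c : ι → ℝ, (∀ i, |c i| ≤ Real.log N ^ T) → ∀ Q : ℕ, (Q : ℝ) ≤ level K N →
    ∀ y : ℕ → ℕ, (∀ q, y q ≤ B * N) →
    ∑ q ∈ Icc 1 Q, (q.divisors.card : ℝ) ^ T * |∑ i ∈ univ.filter (fun i => 0 < v i ∧ (v i).toNat.Coprime q),
      c i * (Fu (fun n => ArithmeticFunction.vonMangoldt n) (y q) q (v i).toNat - (y q : ℝ) / Nat.totient q)| ≤
      N * Fintype.card ι / Real.log N ^ U := by
  classical
  obtain ⟨R, hR⟩ := dual B T U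
  obtain ⟨V, hV⟩ := base_arc hLAW B R
  refine ⟨V, fun S D => ?_⟩
  obtain ⟨C, hbase⟩ := hV S D
  obtain ⟨K, N₀, h⟩ := hR (Arc V S D C) hbase
  refine ⟨K, C, N₀, fun N hN ι _ v hv H hH hoff c hc Q hQ y hy => ?_⟩
  have key := h N hN ι v hv ⟨H, hH, hoff⟩ c hc Q hQ y hy
  refine le_trans (le_of_eq ?_) key
  refine sum_congr rfl fun q _ => ?_
  congr 2

lemma Off.shift {V T D N H : ℕ} {ι : Type} [Fintype ι] {v : ι → ℤ} (h : Off V T D N H v) (c : ℤ) :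
    Off V T D N H (fun i => v i + c) := by
  obtain ⟨Γ, hΓ, h⟩ := h
  refine ⟨Γ, hΓ, fun α hα => ?_⟩
  have h1 := h α hα
  have e2 : ∑ i : ι, ee (((v i + c : ℤ) : ℝ) * α) = ee ((c : ℝ) * α) * ∑ i : ι, ee ((v i : ℝ) * α) := by
    rw [mul_sum]
    refine sum_congr rfl fun i _ => ?_
    rw [← ee_add]
    congr 1
    push_cast
    ring
  rw [e2, norm_mul, norm_ee, one_mul]
  exact h1

open Classical in
/-- almost all members with their neighbours, many systems of weights -/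
theorem arc_near (hLAW : S_LAW') (B T Wn U : ℕ) : ∃ V : ℕ, ∀ S D : ℕ, ∃ K C N₀ : ℕ, ∀ N : ℕ, N₀ ≤ N →
    ∀ (ι : Type) [Fintype ι] (v : ι → ℤ), (∀ i, |v i| ≤ B * N) → ∀ H : ℕ, (N : ℝ) ^ (1 / 3 : ℝ) * Real.log N ^ C ≤ H →
    Off V S D N H v → ∀ L : ℕ, (L : ℝ) ≤ Real.log N ^ T → ∀ lam : Fin L → ℕ → ℝ,
    (∀ l q, |lam l q| ≤ Real.log N ^ T * (q.divisors.card : ℝ) ^ T) →
    ((univ.filter (fun i : ι => ¬ ∀ r : ℕ, 1 ≤ r → |(r : ℝ) - v i| ≤ Real.log N ^ Wn → ∀ l, ∀ Q : ℕ, (Q : ℝ) ≤ level K N →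
      ∀ y : ℕ, y ≤ B * N → |W (lam l) Q y r| ≤ (N : ℝ) / Real.log N ^ U)).card : ℝ) ≤ Fintype.card ι / Real.log N ^ U := by
  obtain ⟨U', hU'⟩ : ∃ U', U' = U + Wn + T + 1 := ⟨_, rfl⟩
  obtain ⟨R, hR⟩ := few (B + 1) T U'
  obtain ⟨V, hV⟩ := base_arc hLAW (B + 1) R
  refine ⟨V, fun S D => ?_⟩
  obtain ⟨C, hbase⟩ := hV S D
  obtain ⟨K, N₁, h⟩ := hR (Arc V S D C) hbase
  obtain ⟨N₂, h2⟩ := eventually_atTop.1 ((ev_ge 3).and (ev_logN Wn 1))
  refine ⟨K, C, N₁ + N₂ + 3, fun N hN ι _ v hv H hH hoff L hL lam hlam => ?_⟩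
  obtain ⟨g1, g2⟩ := h2 N (by omega)
  rw [one_mul] at g2
  have hN1 : (1 : ℝ) ≤ N := by exact_mod_cast (by omega : 1 ≤ N)
  have hN0 : (0 : ℝ) < N := by linarith
  have hL0 : 0 < Real.log N := by linarith
  have hL1 : 1 ≤ Real.log N := by linarith
  have g3 : Real.log N ^ Wn ≤ N := by
    refine g2.trans ?_
    calc (N : ℝ) ^ (1 / 3 : ℝ) ≤ (N : ℝ) ^ (1 : ℝ) := Real.rpow_le_rpow_of_exponent_le hN1 (by norm_num)
      _ = N := Real.rpow_one _
  obtain ⟨R₁, hR₁⟩ : ∃ R₁ : ℕ, R₁ = ⌊Real.log N ^ Wn⌋₊ := ⟨_, rfl⟩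
  have hR₁L : (R₁ : ℝ) ≤ Real.log N ^ Wn := by rw [hR₁]; exact Nat.floor_le (by positivity)
  have hR₁N : R₁ ≤ N := by exact_mod_cast hR₁L.trans g3
  have hone : ∀ t ∈ Icc (-(R₁ : ℤ)) R₁, ∀ l : Fin L,
      ((univ.filter (fun i : ι => 0 < v i + t ∧ ∃ Q : ℕ, (Q : ℝ) ≤ level K N ∧ ∃ y : ℕ, y ≤ (B + 1) * N ∧
        (N : ℝ) / Real.log N ^ U' < |W (lam l) Q y (v i + t).toNat|)).card : ℝ) ≤ Fintype.card ι / Real.log N ^ U' := by
    intro t ht l
    rw [mem_Icc] at ht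
    exact (h N (by omega) ι (fun i => v i + t) (fun i => by
      refine (abs_add_le _ _).trans ?_
      have h3 := hv i
      have h4 : |t| ≤ N := abs_le.2 ⟨by omega, by omega⟩
      push_cast
      linarith) ⟨H, hH, hoff.shift t⟩ (lam l) (hlam l)).1
  have hsub : (univ.filter (fun i : ι => ¬ ∀ r : ℕ, 1 ≤ r → |(r : ℝ) - v i| ≤ Real.log N ^ Wn → ∀ l, ∀ Q : ℕ, (Q : ℝ) ≤ level K N →
      ∀ y : ℕ, y ≤ B * N → |W (lam l) Q y r| ≤ (N : ℝ) / Real.log N ^ U)) ⊆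
      ((Icc (-(R₁ : ℤ)) R₁) ×ˢ (univ : Finset (Fin L))).biUnion (fun tl => univ.filter (fun i : ι => 0 < v i + tl.1 ∧ ∃ Q : ℕ,
        (Q : ℝ) ≤ level K N ∧ ∃ y : ℕ, y ≤ (B + 1) * N ∧ (N : ℝ) / Real.log N ^ U' < |W (lam tl.2) Q y (v i + tl.1).toNat|)) := by
    intro i hi
    rw [mem_filter] at hi
    have hi2 := hi.2
    push Not at hi2
    obtain ⟨r, hr1, hr2, l, Q, hQ, y, hy, hlt⟩ := hi2
    rw [mem_biUnion]
    have hrt : (r : ℤ) - v i ∈ Icc (-(R₁ : ℤ)) R₁ := by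
      have h8 : (((r : ℤ) - v i).natAbs : ℝ) ≤ Real.log N ^ Wn := by
        rw [Nat.cast_natAbs]
        push_cast
        exact hr2
      have h9 := Nat.le_floor h8
      rw [← hR₁] at h9
      rw [mem_Icc]
      omega
    refine ⟨((r : ℤ) - v i, l), mem_product.2 ⟨hrt, mem_univ _⟩, ?_⟩
    rw [mem_filter]
    have e1 : v i + ((r : ℤ) - v i) = r := by ring
    simp only [e1, Int.toNat_natCast]
    refine ⟨mem_univ _, by exact_mod_cast hr1, Q, hQ, y, hy.trans (Nat.mul_le_mul_right _ (by omega)), lt_of_le_of_lt ?_ hlt⟩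
    apply div_le_div_of_nonneg_left hN0.le (by positivity)
    exact pow_le_pow_right₀ hL1 (by omega)
  have h6 : ((univ.filter (fun i : ι => ¬ ∀ r : ℕ, 1 ≤ r → |(r : ℝ) - v i| ≤ Real.log N ^ Wn → ∀ l, ∀ Q : ℕ, (Q : ℝ) ≤ level K N →
      ∀ y : ℕ, y ≤ B * N → |W (lam l) Q y r| ≤ (N : ℝ) / Real.log N ^ U)).card : ℝ) ≤
      ∑ tl ∈ (Icc (-(R₁ : ℤ)) R₁) ×ˢ (univ : Finset (Fin L)), ((univ.filter (fun i : ι => 0 < v i + tl.1 ∧ ∃ Q : ℕ,
        (Q : ℝ) ≤ level K N ∧ ∃ y : ℕ, y ≤ (B + 1) * N ∧ (N : ℝ) / Real.log N ^ U' < |W (lam tl.2) Q y (v i + tl.1).toNat|)).card : ℝ) := by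
    exact_mod_cast (card_le_card hsub).trans card_biUnion_le
  refine h6.trans ?_
  refine (sum_le_sum fun tl htl => hone tl.1 (mem_product.1 htl).1 tl.2).trans ?_
  rw [sum_const, card_product, card_univ, Fintype.card_fin, nsmul_eq_mul, Int.card_Icc]
  have e1 : ((R₁ : ℤ) + 1 - -(R₁ : ℤ)).toNat = 2 * R₁ + 1 := by omega
  rw [e1]
  have h9 : (((2 * R₁ + 1) * L : ℕ) : ℝ) ≤ Real.log N ^ (Wn + 1) * Real.log N ^ T := by
    push_cast
    apply mul_le_mul _ hL (Nat.cast_nonneg _) (by positivity)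
    have : 1 ≤ Real.log N ^ Wn := one_le_pow₀ hL1
    rw [pow_succ]
    nlinarith
  calc (((2 * R₁ + 1) * L : ℕ) : ℝ) * (Fintype.card ι / Real.log N ^ U') ≤
        (Real.log N ^ (Wn + 1) * Real.log N ^ T) * (Fintype.card ι / Real.log N ^ U') :=
        mul_le_mul_of_nonneg_right h9 (by positivity)
    _ = Fintype.card ι / Real.log N ^ U := by
        rw [hU', show U + Wn + T + 1 = U + ((Wn + 1) + T) by ring, pow_add (Real.log (N : ℝ)) U, pow_add (Real.log (N : ℝ)) (Wn + 1) T]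
        field_simp

/-- the values of polynomials -/
theorem poly_off (d : ℕ) (hd : 1 ≤ d) (a V : ℕ) : ∃ S D N₀ : ℕ, ∀ N : ℕ, N₀ ≤ N → ∀ f : ℤ[X], f.natDegree = d →
    |(f.leadingCoeff : ℝ)| ≤ Real.log N ^ a → ∀ M : ℕ, 1 ≤ M → ∀ H : ℕ, 1 ≤ H → (H : ℝ) ≤ (M : ℝ) ^ d →
    OffR V S D N H (fun k : Fin M => f.eval ((k : ℕ) : ℤ)) := by
  obtain ⟨c, m, hc, hI⟩ := Pool.Agent.H373R2.NB.IW_all d hd
  obtain ⟨N₂, h2⟩ := eventually_atTop.1 (ev_ge ((c : ℝ) * d.factorial + c + 2))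
  refine ⟨m * V + a + 1, m * V + 1, N₂ + 3, fun N hN f hfd hlc M hM H hH hHM α hα => ?_⟩
  have hL := h2 N (by omega)
  obtain ⟨L, hLd⟩ : ∃ L, L = Real.log (N : ℝ) := ⟨_, rfl⟩
  rw [← hLd] at hL hlc hα ⊢
  have hc1 : (1 : ℝ) ≤ c := by exact_mod_cast hc
  have hf0 : (0 : ℝ) < d.factorial := by exact_mod_cast d.factorial_pos
  have hcf : 0 ≤ (c : ℝ) * d.factorial := by positivity
  have hLone : 1 ≤ L := by linarith
  have hL0 : 0 < L := by linarith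
  have hM0 : (0 : ℝ) < M := by exact_mod_cast hM
  have hH0 : (0 : ℝ) < H := by exact_mod_cast hH
  by_contra hcon
  push Not at hcon
  rw [Fintype.card_fin, Fin.sum_univ_eq_sum_range (fun k : ℕ => ee (((f.eval ((k : ℕ) : ℤ) : ℤ) : ℝ) * α)) M] at hcon
  obtain ⟨u, hu⟩ : ∃ u : ℝ, u = L ^ V := ⟨_, rfl⟩
  have hu1 : 1 ≤ u := by rw [hu]; exact one_le_pow₀ hLone
  have hu0 : 0 < u := by linarith
  obtain ⟨q, hq1, hq2, a', ha'⟩ := hI M u _ _ hM hu1 (Pool.Agent.H373R2.NB.Ph_poly d f hfd.le α) (by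
    rw [← hu, div_lt_iff₀ hu0] at hcon
    have e : ∑ k ∈ range M, ee (((f.eval ((k : ℕ) : ℤ) : ℤ) : ℝ) * α) =
        ∑ n ∈ range M, Pool.Agent.Helper602.MK.ee (α * ((f.eval ((n : ℕ) : ℤ) : ℤ) : ℝ)) := by
      refine sum_congr rfl fun k _ => ?_
      rw [ee_eq, mul_comm]
    rw [e] at hcon
    linarith)
  have hum : u ^ m = L ^ (m * V) := by rw [hu, ← pow_mul, mul_comm V m]
  rw [hum] at hq2 ha'
  have hlc0 : f.leadingCoeff ≠ 0 := by
    intro h0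
    rw [leadingCoeff_eq_zero] at h0
    rw [h0, natDegree_zero] at hfd
    omega
  obtain ⟨lc, hlcd⟩ : ∃ lc : ℕ, lc = f.leadingCoeff.natAbs := ⟨_, rfl⟩
  have hlcn : 1 ≤ lc := by rw [hlcd]; exact Int.natAbs_pos.2 hlc0
  have hlcR : (lc : ℝ) ≤ L ^ a := by
    rw [hlcd, Nat.cast_natAbs]
    push_cast
    exact hlc
  obtain ⟨k, hk⟩ : ∃ k : ℕ, k = q * d.factorial * lc := ⟨_, rfl⟩
  have hk1 : 1 ≤ k := by
    rw [hk]
    have := d.factorial_pos
    have h3 : 0 < q * d.factorial * lc := by positivity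
    omega
  have hk0 : (1 : ℝ) ≤ k := by exact_mod_cast hk1
  have hk2 : (k : ℝ) ≤ L ^ (m * V + a + 1) := by
    rw [hk]
    push_cast
    calc (q : ℝ) * d.factorial * lc ≤ (c * L ^ (m * V)) * d.factorial * L ^ a := by gcongr
      _ = (c * d.factorial) * (L ^ (m * V) * L ^ a) := by ring
      _ ≤ L * (L ^ (m * V) * L ^ a) := mul_le_mul_of_nonneg_right (by linarith) (by positivity)
      _ = _ := by rw [pow_succ, pow_add]; ring
  have hcoef : f.coeff d = f.leadingCoeff := by rw [← hfd]; rfl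
  rw [hcoef] at ha'
  have hsgn : ((f.leadingCoeff.sign : ℤ) : ℝ) * (f.leadingCoeff : ℝ) = lc := by
    have : f.leadingCoeff.sign * f.leadingCoeff = (lc : ℤ) := by rw [hlcd]; exact Int.sign_mul_self _
    exact_mod_cast this
  have hsabs : |((f.leadingCoeff.sign : ℤ) : ℝ)| = 1 := by
    have : |f.leadingCoeff.sign| = 1 := by
      rcases lt_trichotomy f.leadingCoeff 0 with h | h | h
      · rw [Int.sign_eq_neg_one_of_neg h]; rfl
      · exact absurd h hlc0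
      · rw [Int.sign_eq_one_of_pos h]; rfl
    exact_mod_cast this
  have h3 := hα k hk1 hk2 (f.leadingCoeff.sign * a')
  have h4 : |α - ((f.leadingCoeff.sign * a' : ℤ) : ℝ) / k| ≤ c * L ^ (m * V) / (M : ℝ) ^ d := by
    have e3 : α - ((f.leadingCoeff.sign * a' : ℤ) : ℝ) / k = ((f.leadingCoeff.sign : ℤ) : ℝ) *
        (q * (α * ((d.factorial : ℝ) * (f.leadingCoeff : ℝ))) - a') / k := by
      have e4 : (k : ℝ) = q * d.factorial * (((f.leadingCoeff.sign : ℤ) : ℝ) * (f.leadingCoeff : ℝ)) := by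
        rw [hsgn, hk]
        push_cast
        ring
      have hk' : (k : ℝ) ≠ 0 := by positivity
      rw [eq_div_iff hk', sub_mul, div_mul_cancel₀ _ hk']
      rw [e4]
      push_cast
      ring
    rw [e3, abs_div, abs_mul, hsabs, one_mul, abs_of_pos (by linarith : (0 : ℝ) < k)]
    exact (div_le_self (abs_nonneg _) hk0).trans ha'
  have h5 : (c : ℝ) * L ^ (m * V) / (M : ℝ) ^ d ≤ L ^ (m * V + 1) / H := by
    calc (c : ℝ) * L ^ (m * V) / (M : ℝ) ^ d ≤ c * L ^ (m * V) / H :=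
          div_le_div_of_nonneg_left (by positivity) hH0 hHM
      _ ≤ L ^ (m * V + 1) / H := by
          apply div_le_div_of_nonneg_right _ hH0.le
          rw [pow_succ, mul_comm]
          exact mul_le_mul_of_nonneg_left (by linarith) (by positivity)
  linarith

/-- the flatness in terms of `log N` -/
lemma flat_log (V : ℕ) : ∃ N₀ : ℕ, ∀ N : ℕ, N₀ ≤ N → ∀ (q : ℕ) [NeZero q], (N : ℝ) ^ (1 / 3 : ℝ) ≤ q →
    ∀ {ι : Type} (s : Finset ι) (y : ι → ZMod q), Flat q (1 / Real.log q ^ (V + 1)) s y → Flat q (1 / Real.log N ^ V) s y := by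
  obtain ⟨N₁, hN₁⟩ := eventually_atTop.1 (ev_ge (3 ^ (V + 1)))
  refine ⟨N₁ + 1, fun N hN q _ hq1 ι s y hf => Flat.mono' hf ?_⟩
  have h1 := hN₁ N (by omega)
  have hN0 : (0 : ℝ) < N := by exact_mod_cast (by omega : 0 < N)
  have hL1 : 1 ≤ Real.log N := le_trans (one_le_pow₀ (by norm_num)) h1
  have hlq : Real.log N / 3 ≤ Real.log q := by
    have h2 := Real.log_le_log (by positivity) hq1
    rw [Real.log_rpow hN0] at h2
    linarith
  have hpos : 0 < Real.log N / 3 := by positivity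
  apply one_div_le_one_div_of_le (by positivity)
  calc Real.log N ^ V = Real.log N ^ V * 1 := (mul_one _).symm
    _ ≤ Real.log N ^ V * (Real.log N / 3 ^ (V + 1)) := by
        apply mul_le_mul_of_nonneg_left _ (by positivity)
        rw [le_div_iff₀ (by positivity)]; linarith
    _ = (Real.log N / 3) ^ (V + 1) := by rw [div_pow, pow_succ (Real.log (N : ℝ))]; ring
    _ ≤ Real.log q ^ (V + 1) := pow_le_pow_left₀ hpos.le hlq _

/-- flat families -/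
theorem flat_off (κ : ℤ) (hκ : κ ≠ 0) (V : ℕ) : ∃ N₀ : ℕ, ∀ N : ℕ, N₀ ≤ N → ∀ (M : ℕ) [NeZero M], (N : ℝ) ^ (1 / 3 : ℝ) ≤ M →
    M ≤ N → ∀ (ι : Type) (s : Finset ι) (y : ι → ZMod M), Flat M (1 / Real.log M ^ (V + 3)) s y → ∀ c : ℤ,
    OffR V 1 (V + 2) N M (fun i : s => c + κ * ((y i).val : ℤ)) := by
  obtain ⟨N₁, hN₁⟩ := flat_log (V + 2)
  obtain ⟨N₂, h2⟩ := eventually_atTop.1 (ev_ge (κ.natAbs + 50))
  refine ⟨N₁ + N₂ + 3, fun N hN M _ hM1 hM2 ι s y hf c α hα => ?_⟩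
  have hL := h2 N (by omega)
  have hf' := hN₁ N (by omega) M hM1 s y hf
  obtain ⟨L, hLd⟩ : ∃ L, L = Real.log (N : ℝ) := ⟨_, rfl⟩
  rw [← hLd] at hL hf' hα ⊢
  obtain ⟨κκ, hκκ⟩ : ∃ κκ : ℕ, κκ = κ.natAbs := ⟨_, rfl⟩
  rw [← hκκ] at hL
  have hκ0 : (0 : ℝ) ≤ κκ := Nat.cast_nonneg _
  have hκ1 : 1 ≤ κκ := by rw [hκκ]; exact Int.natAbs_pos.2 hκ
  have hκ1r : (1 : ℝ) ≤ κκ := by exact_mod_cast hκ1
  have hL50 : 50 ≤ L := by linarith
  have hL0 : 0 < L := by linarith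
  have hMpos : 1 ≤ M := Nat.pos_of_ne_zero (NeZero.ne M)
  have hM0 : (0 : ℝ) < M := by exact_mod_cast hMpos
  have hN0 : (0 : ℝ) < N := by exact_mod_cast (by omega : 0 < N)
  rcases s.eq_empty_or_nonempty with hs | hs
  · subst hs
    simp
  have hs0 : (0 : ℝ) < s.card := by exact_mod_cast hs.card_pos
  have hSm := sm_dis' hs hf'
  have hδ : 0 < L ^ (V + 2) / M := by positivity
  have key := hSm.char (by positivity) (κ * α) (L ^ (V + 2) / M) hδ (by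
    intro m
    have h3 := hα κκ hκ1 (by rw [pow_one]; linarith) (κ.sign * m)
    have hsgn : ((κ.sign : ℤ) : ℝ) * (κ : ℝ) = κκ := by
      have : κ.sign * κ = (κκ : ℤ) := by rw [hκκ]; exact Int.sign_mul_self κ
      exact_mod_cast this
    have hsq : ((κ.sign : ℤ) : ℝ) * ((κ.sign : ℤ) : ℝ) = 1 := by
      have : κ.sign * κ.sign = 1 := by
        rcases lt_trichotomy κ 0 with h | h | h
        · rw [Int.sign_eq_neg_one_of_neg h]; rfl
        · exact absurd h hκ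
        · rw [Int.sign_eq_one_of_pos h]; rfl
      exact_mod_cast this
    have hsabs : |((κ.sign : ℤ) : ℝ)| = 1 := by
      have : |κ.sign| = 1 := by
        rcases lt_trichotomy κ 0 with h | h | h
        · rw [Int.sign_eq_neg_one_of_neg h]; rfl
        · exact absurd h hκ
        · rw [Int.sign_eq_one_of_pos h]; rfl
      exact_mod_cast this
    have e1 : |(κ : ℝ) * α - m| = κκ * |α - ((κ.sign * m : ℤ) : ℝ) / κκ| := by
      have e2 : (κκ : ℝ) * |α - ((κ.sign * m : ℤ) : ℝ) / κκ| =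
          |(κκ : ℝ) * (α - ((κ.sign * m : ℤ) : ℝ) / κκ)| := by
        rw [abs_mul, abs_of_nonneg hκ0]
      rw [e2]
      have e3 : (κκ : ℝ) * (α - ((κ.sign * m : ℤ) : ℝ) / κκ) = ((κ.sign : ℤ) : ℝ) * (κ * α - m) := by
        rw [mul_sub, mul_div_cancel₀ _ (by linarith : (κκ : ℝ) ≠ 0), ← hsgn]
        push_cast
        ring
      rw [e3, abs_mul, hsabs, one_mul]
    rw [e1]
    have h5 := abs_nonneg (α - ((κ.sign * m : ℤ) : ℝ) / κκ)
    nlinarith)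
  have e4 : ∑ i : s, ee (((c + κ * ((y i).val : ℤ) : ℤ) : ℝ) * α) =
      ee ((c : ℝ) * α) * ∑ i ∈ s, ee ((κ : ℝ) * α * ((y i).val : ℕ)) := by
    rw [mul_sum, ← sum_coe_sort s (fun i => ee ((c : ℝ) * α) * ee ((κ : ℝ) * α * ((y i).val : ℕ)))]
    refine sum_congr rfl fun i _ => ?_
    rw [← ee_add]
    congr 1
    push_cast
    ring
  rw [e4, norm_mul, norm_ee, one_mul, Fintype.card_coe]
  rw [dis_sum s y M le_rfl (fun v => ee ((κ : ℝ) * α * v)), norm_mul] at key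
  have e5 : ‖(1 / (s.card : ℂ))‖ = 1 / s.card := by
    rw [norm_div, norm_one, Complex.norm_natCast]
  rw [e5, one_div, inv_mul_le_iff₀ hs0] at key
  refine key.trans ?_
  rw [div_eq_mul_one_div (s.card : ℝ)]
  apply mul_le_mul_of_nonneg_left _ hs0.le
  have hlM : Real.log M ≤ L := by
    rw [hLd]
    exact Real.log_le_log hM0 (by exact_mod_cast hM2)
  have e6 : 1 / (L ^ (V + 2) / M * M) = 1 / L ^ V * (1 / L ^ 2) := by
    rw [div_mul_cancel₀ _ hM0.ne', pow_add]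
    field_simp
  have e7 : 1 / L ^ (V + 2) * (42 + 3 * Real.log M) ≤ 1 / L ^ V * ((42 + 3 * L) / L ^ 2) := by
    calc 1 / L ^ (V + 2) * (42 + 3 * Real.log M) ≤ 1 / L ^ (V + 2) * (42 + 3 * L) := by
          apply mul_le_mul_of_nonneg_left _ (by positivity)
          linarith
      _ = _ := by rw [pow_add]; field_simp
  rw [e6]
  have e8 : 1 / L ^ V * (1 / L ^ 2) + 1 / L ^ V * ((42 + 3 * L) / L ^ 2) ≤ 1 / L ^ V := by
    have e9 : 1 / L ^ 2 + (42 + 3 * L) / L ^ 2 ≤ 1 := by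
      rw [← add_div, div_le_one (by positivity)]
      nlinarith
    have e10 : 0 ≤ 1 / L ^ V := by positivity
    nlinarith
  linarith

end Pool.Agent.Run7.h27.EH
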